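import Pool.Agent.Run7.h820.SR.Stm

/-! Pieces INJ and LOG of the project SR (helper820), written by helper590. -/

set_option autoImplicit false
open Complex Filter Topology Set Metric MeasureTheory

namespace Run7.h590.SR

open Run7.h820.SR

theorem N16 {κ B : ℝ} {γ ℓ : ℂ → ℂ} {N : ℕ} {A : ℂ → ℂ} (h : Fx κ B γ ℓ N A) : 16 ≤ N := by
  have h0 := h.blk.κ0
  have h1 := h.blk.κ1
  have h2 := h.blk.B1
  have h3 : (16 : ℝ) ≤ 16 * B ^ 2 / κ := by
    rw [le_div_iff₀ h0]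
    nlinarith
  have h4 : (16 : ℝ) ≤ N := h3.trans h.hN
  exact_mod_cast h4

theorem pow_mem {v : ℂ} (hv : v ∈ ball (0 : ℂ) 1) {N : ℕ} (hN : N ≠ 0) :
    v ^ N ∈ ball (0 : ℂ) 1 := by
  rw [mem_ball_zero_iff] at hv ⊢
  rw [norm_pow]
  exact pow_lt_one₀ (norm_nonneg v) hv hN

/-- the point `τ v` -/
noncomputable def tau (A : ℂ → ℂ) (N : ℕ) (v : ℂ) : ℂ := v * Complex.exp (A (v ^ N) / N)

theorem tau_mem {κ B : ℝ} {γ ℓ : ℂ → ℂ} {N : ℕ} {A : ℂ → ℂ} (h : Fx κ B γ ℓ N A) {v : ℂ}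
    (hv : v ∈ ball (0 : ℂ) 1) : tau A N v ∈ ball (0 : ℂ) (Real.exp (2 * κ)) := by
  have h0 := h.blk.κ0
  have h2 := h.blk.B1
  have hN := N16 h
  have hNpos : (0 : ℝ) < N := by exact_mod_cast (by omega : 0 < N)
  rw [mem_ball_zero_iff]
  unfold tau
  rw [norm_mul, Complex.norm_exp]
  have hb := h.bA (v ^ N) (pow_mem hv (by omega))
  have h5 : ‖A (v ^ N) / N‖ ≤ κ := by
    rw [norm_div, Complex.norm_natCast, div_le_iff₀ hNpos]
    refine hb.trans ?_
    have h6 := h.hN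
    rw [div_le_iff₀ h0] at h6
    nlinarith
  have h7 : (A (v ^ N) / N).re ≤ κ := (Complex.re_le_norm _).trans h5
  have hv' : ‖v‖ < 1 := by rwa [mem_ball_zero_iff] at hv
  calc ‖v‖ * Real.exp (A (v ^ N) / N).re ≤ 1 * Real.exp κ := by
        apply mul_le_mul hv'.le (Real.exp_le_exp.2 h7) (Real.exp_nonneg _) zero_le_one
    _ < Real.exp (2 * κ) := by
        rw [one_mul]
        exact Real.exp_lt_exp.2 (by linarith)

theorem beta_eq {κ B : ℝ} {γ ℓ : ℂ → ℂ} {N : ℕ} {A : ℂ → ℂ} (h : Fx κ B γ ℓ N A) {v : ℂ}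
    (hv : v ∈ ball (0 : ℂ) 1) :
    v * Complex.exp (A v) = tau A N v * Complex.exp (-γ (tau A N v)) := by
  conv_lhs => rw [h.fe v hv]
  unfold tau
  rw [sub_eq_add_neg, Complex.exp_add, mul_assoc]

theorem tau_pow {κ B : ℝ} {γ ℓ : ℂ → ℂ} {N : ℕ} {A : ℂ → ℂ} (h : Fx κ B γ ℓ N A) (v : ℂ) :
    tau A N v ^ N = v ^ N * Complex.exp (A (v ^ N)) := by
  have hN := N16 h
  have hN0 : (N : ℂ) ≠ 0 := by exact_mod_cast (by omega : N ≠ 0)
  unfold tau
  rw [mul_pow, ← Complex.exp_nat_mul, mul_div_cancel₀ _ hN0]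

theorem t_INJ : S_INJ := by
  intro κ B γ ℓ N A h
  have hN := N16 h
  have hN0 : N ≠ 0 := by omega
  -- one step
  have step : ∀ v ∈ ball (0 : ℂ) 1, ∀ v' ∈ ball (0 : ℂ) 1,
      v * Complex.exp (A v) = v' * Complex.exp (A v') →
      tau A N v = tau A N v' ∧ v ^ N * Complex.exp (A (v ^ N)) = v' ^ N * Complex.exp (A (v' ^ N)) := by
    intro v hv v' hv' he
    rw [beta_eq h hv, beta_eq h hv'] at he
    have ht := h.blk.inj (tau_mem h hv) (tau_mem h hv') he
    exact ⟨ht, by rw [← tau_pow h, ← tau_pow h, ht]⟩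
  -- local injectivity at zero
  have hA : AnalyticAt ℂ A 0 := h.dA.analyticAt (ball_mem_nhds 0 one_pos)
  have hβ : HasStrictDerivAt (fun v => v * Complex.exp (A v)) 1 0 := by
    have h1 := (hasStrictDerivAt_id (0 : ℂ)).mul (hA.hasStrictDerivAt.cexp)
    have h2 : (1 : ℂ) * Complex.exp (A 0) + id 0 * (Complex.exp (A 0) * deriv A 0) = 1 := by
      simp [h.A0]
    rw [h2] at h1
    exact h1
  obtain ⟨U, hU, hinj⟩ : ∃ U ∈ 𝓝 (0 : ℂ), InjOn (fun v => v * Complex.exp (A v)) U := by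
    have h2 := hβ.eventually_left_inverse one_ne_zero
    refine ⟨_, h2, ?_⟩
    intro x hx y hy hxy
    have hx' : HasStrictDerivAt.localInverse (fun v => v * Complex.exp (A v)) 1 0 hβ one_ne_zero
        ((fun v => v * Complex.exp (A v)) x) = x := hx
    have hy' : HasStrictDerivAt.localInverse (fun v => v * Complex.exp (A v)) 1 0 hβ one_ne_zero
        ((fun v => v * Complex.exp (A v)) y) = y := hy
    rw [← hx', ← hy', hxy]
  intro v hv v' hv' he
  -- the iterates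
  have hmem : ∀ (u : ℂ), u ∈ ball (0 : ℂ) 1 → ∀ n : ℕ, u ^ (N ^ n) ∈ ball (0 : ℂ) 1 := by
    intro u hu n
    exact pow_mem hu (pow_ne_zero _ hN0)
  have hall : ∀ n : ℕ, v ^ (N ^ n) * Complex.exp (A (v ^ (N ^ n))) =
      v' ^ (N ^ n) * Complex.exp (A (v' ^ (N ^ n))) := by
    intro n
    induction n with
    | zero => simpa using he
    | succ n ih =>
      have h1 := (step _ (hmem v hv n) _ (hmem v' hv' n) ih).2
      rw [← pow_mul, ← pow_mul, ← pow_succ] at h1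
      exact h1
  have hlim : ∀ u ∈ ball (0 : ℂ) 1, Tendsto (fun n : ℕ => u ^ (N ^ n)) atTop (𝓝 0) := by
    intro u hu
    have h1 : Tendsto (fun m : ℕ => u ^ m) atTop (𝓝 0) := by
      apply tendsto_pow_atTop_nhds_zero_of_norm_lt_one
      rwa [mem_ball_zero_iff] at hu
    exact h1.comp (tendsto_pow_atTop_atTop_of_one_lt (by omega))
  have hlarge : ∀ᶠ n in atTop, v ^ (N ^ n) = v' ^ (N ^ n) := by
    filter_upwards [(hlim v hv) hU, (hlim v' hv') hU] with n h1 h2
    exact hinj h1 h2 (hall n)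
  obtain ⟨n, hn⟩ := hlarge.exists
  -- going down
  have hdown : ∀ n : ℕ, v ^ (N ^ n) = v' ^ (N ^ n) → v = v' := by
    intro n
    induction n with
    | zero => intro h1; simpa using h1
    | succ n ih =>
      intro h1
      apply ih
      have h2 := (step _ (hmem v hv n) _ (hmem v' hv' n) (hall n)).1
      unfold tau at h2
      rw [← pow_mul, ← pow_mul, ← pow_succ, h1] at h2
      exact mul_right_cancel₀ (Complex.exp_ne_zero _) h2
  exact hdown n hn


/-- the function whose logarithm is taken -/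
noncomputable def Q (A : ℂ → ℂ) (v : ℂ) : ℂ := 1 + v * deriv A v

theorem tau_deriv {κ B : ℝ} {γ ℓ : ℂ → ℂ} {N : ℕ} {A : ℂ → ℂ} (h : Fx κ B γ ℓ N A) {v : ℂ}
    (hv : v ∈ ball (0 : ℂ) 1) : HasDerivAt (tau A N)
      (Complex.exp (A (v ^ N) / N) * Q A (v ^ N)) v := by
  have hN := N16 h
  have hN0 : (N : ℂ) ≠ 0 := by exact_mod_cast (by omega : N ≠ 0)
  have hA : HasDerivAt A (deriv A (v ^ N)) (v ^ N) :=
    (h.dA.differentiableAt (isOpen_ball.mem_nhds (pow_mem hv (by omega)))).hasDerivAt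
  have h1 : HasDerivAt (fun v : ℂ => v ^ N) (N * v ^ (N - 1)) v := hasDerivAt_pow N v
  have h2 : HasDerivAt (fun v : ℂ => A (v ^ N) / N) (deriv A (v ^ N) * (N * v ^ (N - 1)) / N) v :=
    (HasDerivAt.comp v hA h1).div_const _
  have h3 := (hasDerivAt_id v).mul h2.cexp
  have e : (1 : ℂ) * Complex.exp (A (v ^ N) / N) + id v * (Complex.exp (A (v ^ N) / N) *
      (deriv A (v ^ N) * (N * v ^ (N - 1)) / N)) = Complex.exp (A (v ^ N) / N) * Q A (v ^ N) := by
    unfold Q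
    have e1 : deriv A (v ^ N) * (N * v ^ (N - 1)) / N = deriv A (v ^ N) * v ^ (N - 1) := by
      field_simp
    have e2 : v ^ N = v * v ^ (N - 1) := by
      rw [← pow_succ']
      congr 1
      omega
    rw [e1]
    simp only [id]
    rw [e2]
    ring
  rw [e] at h3
  exact h3

theorem Q_eq {κ B : ℝ} {γ ℓ : ℂ → ℂ} {N : ℕ} {A : ℂ → ℂ} (h : Fx κ B γ ℓ N A) {v : ℂ}
    (hv : v ∈ ball (0 : ℂ) 1) : Q A v = Complex.exp (ℓ (tau A N v)) * Q A (v ^ N) := by
  have hN := N16 h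
  have hN0 : (N : ℂ) ≠ 0 := by exact_mod_cast (by omega : N ≠ 0)
  have hA : HasDerivAt A (deriv A (v ^ N)) (v ^ N) :=
    (h.dA.differentiableAt (isOpen_ball.mem_nhds (pow_mem hv (by omega)))).hasDerivAt
  have h1 : HasDerivAt (fun v : ℂ => v ^ N) (N * v ^ (N - 1)) v := hasDerivAt_pow N v
  have h2 : HasDerivAt (fun v : ℂ => A (v ^ N) / N) (deriv A (v ^ N) * (N * v ^ (N - 1)) / N) v :=
    (HasDerivAt.comp v hA h1).div_const _
  have hγ : HasDerivAt γ (deriv γ (tau A N v)) (tau A N v) :=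
    (h.blk.dγ.differentiableAt (isOpen_ball.mem_nhds (tau_mem h hv))).hasDerivAt
  have h3 := h2.sub (HasDerivAt.comp v hγ (tau_deriv h hv))
  have h4 : deriv A v = deriv A (v ^ N) * (N * v ^ (N - 1)) / N -
      deriv γ (tau A N v) * (Complex.exp (A (v ^ N) / N) * Q A (v ^ N)) := by
    have h5 : A =ᶠ[𝓝 v] fun v => A (v ^ N) / N - γ (tau A N v) := by
      filter_upwards [isOpen_ball.mem_nhds hv] with u hu
      exact h.fe u hu
    rw [h5.deriv_eq]
    exact h3.deriv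
  have e1 : deriv A (v ^ N) * (N * v ^ (N - 1)) / N = deriv A (v ^ N) * v ^ (N - 1) := by
    field_simp
  have e2 : v ^ N = v * v ^ (N - 1) := by
    rw [← pow_succ']
    congr 1
    omega
  rw [h.blk.eq _ (tau_mem h hv)]
  have e3 : Q A (v ^ N) = 1 + v * v ^ (N - 1) * deriv A (v ^ N) := by
    unfold Q
    rw [← e2]
  have e4 : Q A v = 1 + v * deriv A v := rfl
  have e5 : tau A N v = v * Complex.exp (A (v ^ N) / N) := rfl
  rw [e4, h4, e1]
  have e6 : (1 - tau A N v * deriv γ (tau A N v)) * Q A (v ^ N) =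
      Q A (v ^ N) - v * Complex.exp (A (v ^ N) / N) * deriv γ (tau A N v) * Q A (v ^ N) := by
    rw [sub_mul, one_mul, ← e5]
  rw [e6]
  have e7 : Q A (v ^ N) - v * Complex.exp (A (v ^ N) / N) * deriv γ (tau A N v) * Q A (v ^ N) =
      (1 + v * v ^ (N - 1) * deriv A (v ^ N)) -
        v * Complex.exp (A (v ^ N) / N) * deriv γ (tau A N v) * Q A (v ^ N) := by
    rw [← e3]
  rw [e7]
  ring

theorem t_LOG : S_LOG := by
  intro κ B γ ℓ N A h
  have hN := N16 h
  have hN0 : N ≠ 0 := by omega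
  have h0mem : (0 : ℂ) ∈ ball (0 : ℂ) 1 := mem_ball_self one_pos
  have hQd : DifferentiableOn ℂ (Q A) (ball 0 1) :=
    (differentiableOn_const 1).add (differentiableOn_id.mul (h.dA.deriv isOpen_ball))
  have hQ0 : Q A 0 = 1 := by simp [Q]
  have hmem : ∀ (u : ℂ), u ∈ ball (0 : ℂ) 1 → ∀ n : ℕ, u ^ (N ^ n) ∈ ball (0 : ℂ) 1 := by
    intro u hu n
    exact pow_mem hu (pow_ne_zero _ hN0)
  have hlim : ∀ u ∈ ball (0 : ℂ) 1, Tendsto (fun n : ℕ => u ^ (N ^ n)) atTop (𝓝 0) := by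
    intro u hu
    have h1 : Tendsto (fun m : ℕ => u ^ m) atTop (𝓝 0) := by
      apply tendsto_pow_atTop_nhds_zero_of_norm_lt_one
      rwa [mem_ball_zero_iff] at hu
    exact h1.comp (tendsto_pow_atTop_atTop_of_one_lt (by omega))
  have hQne : ∀ v ∈ ball (0 : ℂ) 1, Q A v ≠ 0 := by
    intro v hv hz
    have hall : ∀ n : ℕ, Q A (v ^ (N ^ n)) = 0 := by
      intro n
      induction n with
      | zero => simpa using hz
      | succ n ih =>
        rw [Q_eq h (hmem v hv n), mul_eq_zero] at ih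
        rcases ih with ih | ih
        · exact absurd ih (Complex.exp_ne_zero _)
        · rwa [← pow_mul, ← pow_succ] at ih
    have hc : ContinuousAt (Q A) 0 := (hQd.continuousOn).continuousAt (isOpen_ball.mem_nhds h0mem)
    have h1 : Tendsto (fun n : ℕ => Q A (v ^ (N ^ n))) atTop (𝓝 (Q A 0)) :=
      hc.tendsto.comp (hlim v hv)
    have h2 : Tendsto (fun n : ℕ => Q A (v ^ (N ^ n))) atTop (𝓝 0) := by
      simp only [hall]
      exact tendsto_const_nhds
    have h3 := tendsto_nhds_unique h1 h2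
    rw [hQ0] at h3
    exact one_ne_zero h3
  have hconv : Convex ℝ (ball (0 : ℂ) 1) := convex_ball _ _
  have hcon : ContractibleSpace ↥(ball (0 : ℂ) 1) := hconv.contractibleSpace ⟨0, h0mem⟩
  have hsc : IsSimplyConnected (ball (0 : ℂ) 1) := by
    unfold IsSimplyConnected
    infer_instance
  obtain ⟨f, hfc, hfe⟩ := Complex.exists_continuousOn_eqOn_exp_comp hsc isOpen_ball
    hQd.continuousOn (by
      rintro ⟨v, hv, hz⟩
      exact hQne v hv hz)
  have hfe' : ∀ v ∈ ball (0 : ℂ) 1, Complex.exp (f v) = Q A v := fun v hv => hfe hv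
  have hE : ∀ v ∈ ball (0 : ℂ) 1, Complex.exp (f v - f 0) = Q A v := by
    intro v hv
    rw [Complex.exp_sub, hfe' v hv, hfe' 0 h0mem, hQ0, div_one]
  have hEc : ContinuousOn (fun v => f v - f 0) (ball 0 1) := hfc.sub continuousOn_const
  have htau0 : tau A N 0 = 0 := by simp [tau]
  refine ⟨fun v => f v - f 0, Pool.Agent.W677.Mar.log_diff isOpen_ball hEc hQd hE, by simp,
    fun v hv => hE v hv, ?_⟩
  intro v hv
  have hpowc : ContinuousOn (fun v : ℂ => v ^ N) (ball 0 1) := (continuous_pow N).continuousOn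
  have hEN : ContinuousOn (fun v : ℂ => f (v ^ N) - f 0) (ball 0 1) :=
    hEc.comp hpowc (fun u hu => pow_mem hu hN0)
  have hτc : ContinuousOn (tau A N) (ball 0 1) := fun u hu =>
    (tau_deriv h hu).continuousAt.continuousWithinAt
  have hℓ : ContinuousOn (fun v => ℓ (tau A N v)) (ball 0 1) :=
    h.blk.dℓ.continuousOn.comp hτc (fun u hu => tau_mem h hu)
  have key := Pool.Agent.W677.Mar.exp_unique (hconv.isPreconnected) hEc (hℓ.add hEN)
    (fun u hu => by
      show Complex.exp (f u - f 0) = Complex.exp (ℓ (tau A N u) + (f (u ^ N) - f 0))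
      rw [hE u hu, Complex.exp_add, hE _ (pow_mem hu hN0), Q_eq h hu]) h0mem
    (by
      show f 0 - f 0 = ℓ (tau A N 0) + (f (0 ^ N) - f 0)
      rw [htau0, h.blk.ℓ0, zero_pow hN0]
      ring) hv
  exact key

end Run7.h590.SR
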