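import Pool.Agent.Run7.h820.SR.Stm

/-! Piece SYM of the project SR (helper820), written by helper590. -/

set_option autoImplicit false
open Complex Filter Topology Set Metric MeasureTheory

namespace Run7.h590.SR

open Run7.h820.SR Pool.Agent.W677.Mar

theorem NN_symm (Y : ℂ → ℂ) (ζ z : ℂ) : NN Y ζ z = NN Y z ζ := by
  by_cases h : z = ζ
  · rw [h]
  · have h1 := NN_mul Y ζ z
    have h2 := NN_mul Y z ζ
    have h3 : z - ζ ≠ 0 := sub_ne_zero.2 h
    apply mul_right_cancel₀ h3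
    linear_combination h1 + h2

theorem t_SYM : S_SYM := by
  intro Y H f _ hf he h0 ζ hζ z hz
  have hpre : IsPreconnected (ball (0 : ℂ) 1 ×ˢ ball (0 : ℂ) 1) :=
    ((convex_ball _ _).prod (convex_ball _ _) : Convex ℝ (ball (0 : ℂ) 1 ×ˢ ball (0 : ℂ) 1)).isPreconnected
  have hg : ContinuousOn (fun p : ℂ × ℂ => f (p.2, p.1)) (ball 0 1 ×ˢ ball 0 1) :=
    hf.comp (by fun_prop) (fun p hp => ⟨hp.2, hp.1⟩)
  exact exp_unique hpre hf hg (x₀ := ((0 : ℂ), (0 : ℂ)))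
    (fun p hp => by
      rw [he p.1 hp.1 p.2 hp.2, he p.2 hp.2 p.1 hp.1, NN_symm])
    ⟨mem_ball_self one_pos, mem_ball_self one_pos⟩ rfl (x := (ζ, z)) ⟨hζ, hz⟩

end Run7.h590.SR
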